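import Pool.Agent.P.MP_2920fb_lc.Main

open Pool.Agent.P.MP_2920fb_lc

/-- Some RWW-automaton with window size one accepts a language that is not growing
context-sensitive. -/
theorem Pool.Agent.Results.MP_2920fb_lc.WindowOne.result :
    ∃ M : RWW (Fin 4), M.k = 1 ∧
      ∀ G : Grammar (Fin 4), G.Growing → G.language ≠ M.language :=
  ⟨aut, rfl, not_growing⟩
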